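import Mathlib

/-!
# Base case for Mueger centralizers: products of projectives (helper64)

`Z` is an abelian braided rigid monoidal category with simple unit, `D`, `D'` two tensor
subcategories with semisimple intersection and `S` the tensor subcategory generated by both.
We prove that a tensor product of a projective of `D` and a projective of `D'` is projective
in `S`, as soon as `S` has one projective object with an epimorphism to the unit.
-/

open CategoryTheory CategoryTheory.Limits MonoidalCategory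

universe v u

namespace Pool.Agent.MUE64

set_option linter.unusedSectionVars false

variable {Z : Type u} [Category.{v} Z] [Abelian Z] [MonoidalCategory Z] [MonoidalPreadditive Z]

/-- `X` is projective in the full subcategory `P`: it belongs to `P` and lifts along all
epimorphisms of `Z` between objects of `P`. -/
def ProjIn (P : ObjectProperty Z) (X : Z) : Prop :=
  P X ∧ ∀ {A B : Z}, P A → P B → ∀ (p : A ⟶ B), Epi p → ∀ f : X ⟶ B, ∃ g : X ⟶ A, g ≫ p = f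

/-- A tensor subcategory: contains the unit, closed under tensor products, duals, subobjects,
quotients and binary direct sums. -/
structure TSub [RigidCategory Z] (P : ObjectProperty Z) : Prop where
  unit : P (𝟙_ Z)
  tensor : ∀ {X Y : Z}, P X → P Y → P (X ⊗ Y)
  sub : ∀ {X Y : Z} (i : X ⟶ Y), Mono i → P Y → P X
  quo : ∀ {X Y : Z} (p : X ⟶ Y), Epi p → P X → P Y
  rdual : ∀ {X : Z}, P X → P (Xᘁ)
  ldual : ∀ {X : Z}, P X → P (ᘁX)
  biprod : ∀ {X Y : Z}, P X → P Y → P (X ⊞ Y)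

section basic

variable [RigidCategory Z] {P : ObjectProperty Z}

theorem TSub.iso (hP : TSub P) {X Y : Z} (e : X ≅ Y) (h : P X) : P Y :=
  hP.quo e.hom inferInstance h

instance tensorLeft_epi (W : Z) {X Y : Z} (f : X ⟶ Y) [Epi f] : Epi (W ◁ f) := by
  have : (tensorLeft W).IsLeftAdjoint := (tensorLeftAdjunction (ᘁW) W).isLeftAdjoint
  have : Epi ((tensorLeft W).map f) := inferInstance
  exact this

instance tensorRight_epi (W : Z) {X Y : Z} (f : X ⟶ Y) [Epi f] : Epi (f ▷ W) := by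
  have : (tensorRight W).IsLeftAdjoint := (tensorRightAdjunction W (Wᘁ)).isLeftAdjoint
  have : Epi ((tensorRight W).map f) := inferInstance
  exact this

instance tensorLeft_mono (W : Z) {X Y : Z} (f : X ⟶ Y) [Mono f] : Mono (W ◁ f) := by
  have : (tensorLeft W).IsRightAdjoint := (tensorLeftAdjunction W (Wᘁ)).isRightAdjoint
  have : Mono ((tensorLeft W).map f) := inferInstance
  exact this

instance tensorRight_mono (W : Z) {X Y : Z} (f : X ⟶ Y) [Mono f] : Mono (f ▷ W) := by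
  have : (tensorRight W).IsRightAdjoint := (tensorRightAdjunction (ᘁW) W).isRightAdjoint
  have : Mono ((tensorRight W).map f) := inferInstance
  exact this

/-- `X ⊗ W` is projective in `P` if `X` is. -/
theorem ProjIn.tensor_right (hP : TSub P) {X W : Z} (hX : ProjIn P X) (hW : P W) :
    ProjIn P (X ⊗ W) := by
  refine ⟨hP.tensor hX.1 hW, ?_⟩
  intro A B hA hB p hp f
  obtain ⟨g, hg⟩ := hX.2 (hP.tensor hA (hP.rdual hW)) (hP.tensor hB (hP.rdual hW)) (p ▷ Wᘁ)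
    inferInstance (tensorRightHomEquiv X W (Wᘁ) B f)
  refine ⟨(tensorRightHomEquiv X W (Wᘁ) A).symm g, ?_⟩
  apply (tensorRightHomEquiv X W (Wᘁ) B).injective
  rw [tensorRightHomEquiv_naturality, Equiv.apply_symm_apply, hg]

/-- `W ⊗ X` is projective in `P` if `X` is. -/
theorem ProjIn.tensor_left (hP : TSub P) {X W : Z} (hX : ProjIn P X) (hW : P W) :
    ProjIn P (W ⊗ X) := by
  refine ⟨hP.tensor hW hX.1, ?_⟩
  intro A B hA hB p hp f
  obtain ⟨g, hg⟩ := hX.2 (hP.tensor (hP.ldual hW) hA) (hP.tensor (hP.ldual hW) hB) ((ᘁW) ◁ p)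
    inferInstance (tensorLeftHomEquiv X (ᘁW) W B f)
  refine ⟨(tensorLeftHomEquiv X (ᘁW) W A).symm g, ?_⟩
  apply (tensorLeftHomEquiv X (ᘁW) W B).injective
  rw [tensorLeftHomEquiv_naturality, Equiv.apply_symm_apply, hg]

/-- A retract of an object projective in `P` is projective in `P`. -/
theorem ProjIn.retract (hP : TSub P) {X Y : Z} (hX : ProjIn P X) (i : Y ⟶ X) (r : X ⟶ Y)
    (h : i ≫ r = 𝟙 Y) : ProjIn P Y := by
  have hr : Epi r := by
    have : Epi (i ≫ r) := by rw [h]; infer_instance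
    exact epi_of_epi i r
  refine ⟨hP.quo r hr hX.1, ?_⟩
  intro A B hA hB p hp f
  obtain ⟨g, hg⟩ := hX.2 hA hB p hp (r ≫ f)
  exact ⟨i ≫ g, by rw [Category.assoc, hg, ← Category.assoc, h, Category.id_comp]⟩

/-- Every epimorphism onto a projective of `P` from an object of `P` splits. -/
theorem ProjIn.epi_split {X Y : Z} (hY : ProjIn P Y) (hX : P X) (p : X ⟶ Y) (hp : Epi p) :
    ∃ s : Y ⟶ X, s ≫ p = 𝟙 Y :=
  hY.2 hX hY.1 p hp (𝟙 Y)

/-- Every monomorphism from a projective of `P` into an object of `P` splits. -/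
theorem ProjIn.mono_split (hP : TSub P) {Q B : Z} (hQ : ProjIn P Q) (hB : P B) (i : Q ⟶ B)
    (hi : Mono i) : ∃ r : B ⟶ Q, i ≫ r = 𝟙 Q := by
  -- the cokernel of `i`, tensored with `ᘁQ ⊗ Q`, is projective
  let W : Z := (ᘁQ) ⊗ Q
  let c : B ⟶ cokernel i := cokernel.π i
  have hC : P (cokernel i) := hP.quo c inferInstance hB
  have hW : P W := hP.tensor (hP.ldual hQ.1) hQ.1
  have hCW : ProjIn P (cokernel i ⊗ W) := by
    have h1 : ProjIn P ((cokernel i ⊗ (ᘁQ)) ⊗ Q) :=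
      hQ.tensor_left hP (hP.tensor hC (hP.ldual hQ.1))
    exact h1.retract hP (α_ _ _ _).inv (α_ _ _ _).hom (Iso.inv_hom_id _)
  obtain ⟨s, hs⟩ := hCW.epi_split (hP.tensor hB hW) (c ▷ W) inferInstance
  -- hence a retraction `ρ : B ⊗ W ⟶ Q ⊗ W` of `i ▷ W`
  have hz : (𝟙 (B ⊗ W) - (c ▷ W) ≫ s) ≫ (c ▷ W) = 0 := by
    rw [Preadditive.sub_comp, Category.id_comp, Category.assoc, hs, Category.comp_id, sub_self]
  let S : ShortComplex Z := ShortComplex.mk i c (cokernel.condition i)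
  have hS : S.Exact := ShortComplex.exact_cokernel i
  have hSf : Mono S.f := hi
  have hR : (tensorRight W).IsRightAdjoint := (tensorRightAdjunction (ᘁW) W).isRightAdjoint
  have hSW : (S.map (tensorRight W)).Exact :=
    hS.map_of_mono_of_preservesKernel (tensorRight W) hi inferInstance
  have hm : Mono (S.map (tensorRight W)).f := by
    change Mono (i ▷ W)
    infer_instance
  let ρ : B ⊗ W ⟶ Q ⊗ W := hSW.lift (𝟙 (B ⊗ W) - (c ▷ W) ≫ s) hz
  have hρ : ρ ≫ (i ▷ W) = 𝟙 (B ⊗ W) - (c ▷ W) ≫ s := hSW.lift_f _ hz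
  have hiρ : (i ▷ W) ≫ ρ = 𝟙 (Q ⊗ W) := by
    rw [← cancel_mono (i ▷ W), Category.assoc, hρ, Preadditive.comp_sub, Category.comp_id,
      ← Category.assoc, ← comp_whiskerRight, cokernel.condition,
      MonoidalPreadditive.zero_whiskerRight, zero_comp,
      sub_zero, Category.id_comp]
  refine ⟨(ρ_ B).inv ≫ B ◁ η_ (ᘁQ) Q ≫ ρ ≫ (α_ Q (ᘁQ) Q).inv ≫ ε_ (ᘁQ) Q ▷ Q ≫ (λ_ Q).hom, ?_⟩
  have h1 : i ≫ (ρ_ B).inv = (ρ_ Q).inv ≫ i ▷ 𝟙_ Z := rightUnitor_inv_naturality i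
  rw [reassoc_of% h1, ← whisker_exchange_assoc, reassoc_of% hiρ]
  simp

end basic

section braided

variable [RigidCategory Z]

/-- A pairing between an object of `D` and an object of `D'` factors through quotients
which belong to both. -/
theorem factor {D D' : ObjectProperty Z} (hD : TSub D) (hD' : TSub D') {A B : Z}
    (hA : D A) (hB : D' B) (f : A ⊗ B ⟶ 𝟙_ Z) :
    ∃ (I J : Z) (π : A ⟶ I) (π' : B ⟶ J) (q : I ⊗ J ⟶ 𝟙_ Z), D I ∧ D' I ∧ D J ∧ D' J ∧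
      Epi π ∧ Epi π' ∧ f = (π ⊗ₘ π') ≫ q := by
  let g : A ⟶ 𝟙_ Z ⊗ Bᘁ := tensorRightHomEquiv A B (Bᘁ) (𝟙_ Z) f
  let I : Z := image g
  let π : A ⟶ I := factorThruImage g
  have hI : D I := hD.quo π inferInstance hA
  have hI' : D' I := hD'.sub (image.ι g) inferInstance (hD'.tensor hD'.unit (hD'.rdual hB))
  let f1 : I ⊗ B ⟶ 𝟙_ Z := (tensorRightHomEquiv I B (Bᘁ) (𝟙_ Z)).symm (image.ι g)
  have hf1 : f = π ▷ B ≫ f1 := by
    rw [← tensorRightHomEquiv_symm_naturality, image.fac, Equiv.symm_apply_apply]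
  let g' : B ⟶ (ᘁI) ⊗ 𝟙_ Z := tensorLeftHomEquiv B (ᘁI) I (𝟙_ Z) f1
  let J : Z := image g'
  let π' : B ⟶ J := factorThruImage g'
  have hJ' : D' J := hD'.quo π' inferInstance hB
  have hJ : D J := hD.sub (image.ι g') inferInstance (hD.tensor (hD.ldual hI) hD.unit)
  let q : I ⊗ J ⟶ 𝟙_ Z := (tensorLeftHomEquiv J (ᘁI) I (𝟙_ Z)).symm (image.ι g')
  have hq : f1 = I ◁ π' ≫ q := by
    rw [← tensorLeftHomEquiv_symm_naturality, image.fac, Equiv.symm_apply_apply]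
  refine ⟨I, J, π, π', q, hI, hI', hJ, hJ', inferInstance, inferInstance, ?_⟩
  rw [hf1, hq, MonoidalCategory.tensorHom_def, Category.assoc]

variable [BraidedCategory Z]

/-- MAIN STEP of the base case: if `D ∩ D'` is semisimple, the tensor product of a projective
of `D` and a projective of `D'` is projective in the tensor subcategory generated by both. -/
theorem projIn_tensor {D D' S : ObjectProperty Z} (hD : TSub D) (hD' : TSub D') (hS : TSub S)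
    (hDS : ∀ X, D X → S X) (hD'S : ∀ X, D' X → S X)
    (hgen : ∀ Y, S Y → ∃ (X X' N : Z) (i : N ⟶ X ⊗ X') (p : N ⟶ Y),
      D X ∧ D' X' ∧ Mono i ∧ Epi p)
    (henD : ∀ X, D X → ∃ (P : Z) (p : P ⟶ X), ProjIn D P ∧ Epi p)
    (henD' : ∀ X, D' X → ∃ (P : Z) (p : P ⟶ X), ProjIn D' P ∧ Epi p)
    (hQ : ∃ (Q : Z) (e : Q ⟶ 𝟙_ Z), ProjIn S Q ∧ Epi e)
    (hss : ∀ {A B : Z}, D A → D' A → D B → D' B → ∀ p : A ⟶ B, Epi p → ∃ s, s ≫ p = 𝟙 B)
    {P₂ P₂' : Z} (hP : ProjIn D P₂) (hP' : ProjIn D' P₂') : ProjIn S (P₂ ⊗ P₂') := by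
  obtain ⟨Q, e, hQ, he⟩ := hQ
  obtain ⟨X, X', N, i, p, hX, hX', hi, hp⟩ := hgen Q hQ.1
  have hN : S N := hS.sub i hi (hS.tensor (hDS X hX) (hD'S X' hX'))
  obtain ⟨s, hs⟩ := hQ.epi_split hN p hp
  have hsm : Mono s := by
    have : Mono (s ≫ p) := by rw [hs]; infer_instance
    exact mono_of_mono s p
  obtain ⟨r, hr⟩ := hQ.mono_split hS (hS.tensor (hDS X hX) (hD'S X' hX')) (s ≫ i)
    (mono_comp s i)
  have hre : Epi r := by
    have : Epi ((s ≫ i) ≫ r) := by rw [hr]; infer_instance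
    exact epi_of_epi (s ≫ i) r
  obtain ⟨P, a, hPD, ha⟩ := henD X hX
  obtain ⟨P', a', hPD', ha'⟩ := henD' X' hX'
  obtain ⟨I, J, π, π', q, hI, hI', hJ, hJ', hπ, hπ', hf⟩ :=
    factor hD hD' hPD.1 hPD'.1 ((a ⊗ₘ a') ≫ r ≫ e)
  have haa : Epi (a ⊗ₘ a') := by
    rw [MonoidalCategory.tensorHom_def]
    exact epi_comp _ _
  have hfe : Epi ((π ⊗ₘ π') ≫ q) := by
    rw [← hf]
    exact epi_comp _ _
  have hqe : Epi q := epi_of_epi (π ⊗ₘ π') q
  obtain ⟨σ, hσ⟩ := hss (hD.tensor hI hJ) (hD'.tensor hI' hJ') hD.unit hD'.unit q hqe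
  obtain ⟨s1, hs1⟩ := (hP.tensor_right hD hI).epi_split (hD.tensor hP.1 hPD.1) (P₂ ◁ π)
    inferInstance
  obtain ⟨s2, hs2⟩ := (hP'.tensor_right hD' hJ').epi_split (hD'.tensor hP'.1 hPD'.1) (P₂' ◁ π')
    inferInstance
  -- a section of `(P₂ ⊗ P₂') ◁ ((π ⊗ π') ≫ q)`
  let t : (P₂ ⊗ P₂') ⊗ 𝟙_ Z ⟶ (P₂ ⊗ P₂') ⊗ (P ⊗ P') :=
    (P₂ ⊗ P₂') ◁ σ ≫ tensorμ P₂ P₂' I J ≫ (s1 ⊗ₘ s2) ≫ tensorδ P₂ P₂' P P'
  have hδ : tensorδ P₂ P₂' P P' ≫ (P₂ ⊗ P₂') ◁ (π ⊗ₘ π') =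
      (P₂ ◁ π ⊗ₘ P₂' ◁ π') ≫ tensorδ P₂ P₂' I J := by
    have h := tensorμ_natural_right P₂ P₂' π π'
    calc tensorδ P₂ P₂' P P' ≫ (P₂ ⊗ P₂') ◁ (π ⊗ₘ π')
        = tensorδ P₂ P₂' P P' ≫ ((P₂ ⊗ P₂') ◁ (π ⊗ₘ π') ≫ tensorμ P₂ P₂' I J) ≫
            tensorδ P₂ P₂' I J := by
          rw [Category.assoc, tensorμ_tensorδ, Category.comp_id]
      _ = _ := by rw [h, Category.assoc, tensorδ_tensorμ_assoc]
  have ht : t ≫ (P₂ ⊗ P₂') ◁ ((a ⊗ₘ a') ≫ r ≫ e) = 𝟙 _ := by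
    rw [hf, whiskerLeft_comp]
    simp only [t, Category.assoc]
    rw [reassoc_of% hδ, tensorHom_comp_tensorHom_assoc, hs1, hs2, id_tensorHom_id, Category.id_comp,
      tensorμ_tensorδ_assoc, ← whiskerLeft_comp, hσ, whiskerLeft_id]
  have hPP : S (P₂ ⊗ P₂') := hS.tensor (hDS _ hP.1) (hD'S _ hP'.1)
  refine (hQ.tensor_left hS hPP).retract hS
    ((ρ_ _).inv ≫ t ≫ (P₂ ⊗ P₂') ◁ ((a ⊗ₘ a') ≫ r)) ((P₂ ⊗ P₂') ◁ e ≫ (ρ_ _).hom) ?_
  have h2 : (P₂ ⊗ P₂') ◁ ((a ⊗ₘ a') ≫ r) ≫ (P₂ ⊗ P₂') ◁ e =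
      (P₂ ⊗ P₂') ◁ ((a ⊗ₘ a') ≫ r ≫ e) := by
    rw [← whiskerLeft_comp, Category.assoc]
  rw [Category.assoc, Category.assoc, reassoc_of% h2, reassoc_of% ht, Iso.inv_hom_id]

end braided

end Pool.Agent.MUE64
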