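import Mathlib
import Pool.Agent.MUE64.Base

/-!
# The exact retraction onto a tensor subcategory (helper64)
-/

open CategoryTheory CategoryTheory.Limits MonoidalCategory

universe v u

namespace Pool.Agent.MUE64

set_option linter.unusedSectionVars false

variable {Z : Type u} [Category.{v} Z] [Abelian Z]

/-- Every Noetherian object has a largest subobject in a property closed under quotients, binary
sums and containing zero. -/
theorem exists_core {D : ObjectProperty Z} (hzero : ∀ X : Z, IsZero X → D X)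
    (hquo : ∀ {X Y : Z} (p : X ⟶ Y), Epi p → D X → D Y)
    (hbi : ∀ {X Y : Z}, D X → D Y → D (X ⊞ Y)) (Y : Z) (hY : IsNoetherianObject Y) :
    ∃ (Y₀ : Z) (i : Y₀ ⟶ Y), Mono i ∧ D Y₀ ∧ ∀ {X : Z} (f : X ⟶ Y), D X → ∃ g, g ≫ i = f := by
  let s : Set (Subobject Y) := {A | D (A : Z)}
  have hne : s.Nonempty := by
    refine ⟨⊥, ?_⟩
    exact hzero _ ((isZero_zero Z).of_iso (Subobject.botCoeIsoZero))
  obtain ⟨M, hM, hmax⟩ := WellFounded.has_min (wellFounded_gt (α := Subobject Y)) s hne
  refine ⟨(M : Z), M.arrow, inferInstance, hM, ?_⟩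
  intro X f hX
  let p : X ⟶ (imageSubobject f : Z) := factorThruImageSubobject f
  have hI : D (imageSubobject f : Z) := hquo p inferInstance hX
  -- the join is a quotient of the direct sum
  have hsup : D ((M ⊔ imageSubobject f : Subobject Y) : Z) := by
    let q : (M : Z) ⊞ (imageSubobject f : Z) ⟶ ((M ⊔ imageSubobject f : Subobject Y) : Z) :=
      biprod.desc (Subobject.ofLE _ _ le_sup_left) (Subobject.ofLE _ _ le_sup_right)
    have hq : Epi q := by
      -- the image of `q` is a subobject containing both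
      let A : Subobject Y := Subobject.mk (image.ι q ≫ (M ⊔ imageSubobject f).arrow)
      have hA1 : M ≤ A := by
        refine Subobject.le_mk_of_comm (biprod.inl ≫ factorThruImage q) ?_
        rw [Category.assoc, image.fac_assoc, biprod.inl_desc_assoc, Subobject.ofLE_arrow]
      have hA2 : imageSubobject f ≤ A := by
        refine Subobject.le_mk_of_comm (biprod.inr ≫ factorThruImage q) ?_
        rw [Category.assoc, image.fac_assoc, biprod.inr_desc_assoc, Subobject.ofLE_arrow]
      have hA : M ⊔ imageSubobject f ≤ A := sup_le hA1 hA2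
      let t : ((M ⊔ imageSubobject f : Subobject Y) : Z) ⟶ image q :=
        Subobject.ofLEMk _ _ hA
      have ht : t ≫ image.ι q = 𝟙 _ := by
        rw [← cancel_mono (M ⊔ imageSubobject f).arrow, Category.assoc, Category.id_comp]
        exact Subobject.ofLEMk_comp hA
      have hι : Epi (image.ι q) := by
        have : Epi (t ≫ image.ι q) := by rw [ht]; infer_instance
        exact epi_of_epi t (image.ι q)
      rw [← image.fac q]
      exact epi_comp _ _
    exact hquo q hq (hbi hM hI)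
  have hle : imageSubobject f ≤ M := by
    by_contra hcon
    have hlt : M < M ⊔ imageSubobject f := by
      refine lt_of_le_of_ne le_sup_left ?_
      intro heq
      exact hcon (heq ▸ le_sup_right)
    exact hmax _ hsup hlt
  refine ⟨p ≫ Subobject.ofLE _ _ hle, ?_⟩
  rw [Category.assoc, Subobject.ofLE_arrow, imageSubobject_arrow_comp]

/-- If every object has a largest `D`-subobject, the inclusion has a right adjoint. -/
theorem ι_isLeftAdjoint (D : ObjectProperty Z)
    (hcore : ∀ Y : Z, ∃ (Y₀ : Z) (i : Y₀ ⟶ Y), Mono i ∧ D Y₀ ∧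
      ∀ {X : Z} (f : X ⟶ Y), D X → ∃ g, g ≫ i = f) : D.ι.IsLeftAdjoint := by
  have hT : ∀ Y, HasTerminal (CostructuredArrow D.ι Y) := by
    intro Y
    obtain ⟨Y₀, i, hi, hD, hl⟩ := hcore Y
    let Y₁ : D.FullSubcategory := ⟨Y₀, hD⟩
    let i₁ : D.ι.obj Y₁ ⟶ Y := i
    have hi₁ : Mono i₁ := hi
    have hl₁ : ∀ A : CostructuredArrow D.ι Y, ∃ g : A.left ⟶ Y₁, D.ι.map g ≫ i₁ = A.hom := by
      intro A
      obtain ⟨g, hg⟩ := hl A.hom A.left.property
      exact ⟨ObjectProperty.homMk g, hg⟩
    let T : CostructuredArrow D.ι Y := CostructuredArrow.mk i₁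
    refine IsTerminal.hasTerminal (X := T) (IsTerminal.ofUniqueHom (fun A => ?_) (fun A m => ?_))
    · exact CostructuredArrow.homMk (hl₁ A).choose (hl₁ A).choose_spec
    · apply CostructuredArrow.hom_ext
      apply D.ι.map_injective
      have h1 : D.ι.map m.left ≫ i₁ = A.hom := CostructuredArrow.w m
      have h2 := (hl₁ A).choose_spec
      rw [← cancel_mono i₁]
      exact h1.trans h2.symm
  exact isLeftAdjoint_of_costructuredArrowTerminals _

variable [MonoidalCategory Z] [MonoidalPreadditive Z] [RigidCategory Z]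

/-- MAIN: existence of an exact retraction `R : Z ⥤ D` of the inclusion `D.ι`, given an object `W`
with `W ⊗ P` projective for all projectives `P` of `D` and an epimorphism `ε : W ⟶ 𝟙_ Z` such that
all morphisms from `W` to objects of `D` factor through `ε`. -/
theorem exists_retract (D : ObjectProperty Z) [D.ContainsZero] [D.IsClosedUnderKernels]
    [D.IsClosedUnderCokernels] [D.IsClosedUnderFiniteProducts] (hD : TSub D)
    (hcore : ∀ Y : Z, ∃ (Y₀ : Z) (i : Y₀ ⟶ Y), Mono i ∧ D Y₀ ∧
      ∀ {X : Z} (f : X ⟶ Y), D X → ∃ g, g ≫ i = f)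
    (henD : ∀ X, D X → ∃ (P : Z) (p : P ⟶ X), ProjIn D P ∧ Epi p)
    (W : Z) (ε : W ⟶ 𝟙_ Z) [Epi ε] (hfac : ∀ {Y : Z}, D Y → ∀ h : W ⟶ Y, ∃ g, ε ≫ g = h)
    (hproj : ∀ P, ProjIn D P → Projective (W ⊗ P)) :
    ∃ (R : Z ⥤ D.FullSubcategory) (_ : R.Additive) (_ : PreservesFiniteLimits R)
      (_ : PreservesFiniteColimits R), Nonempty (D.ι ⋙ R ≅ 𝟭 D.FullSubcategory) := by
  have hL : D.ι.IsLeftAdjoint := ι_isLeftAdjoint D hcore
  let adj0 : D.ι ⊣ D.ι.rightAdjoint := Adjunction.ofIsLeftAdjoint D.ι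
  let adj1 : tensorLeft W ⊣ tensorLeft (ᘁW) := tensorLeftAdjunction (ᘁW) W
  let L : D.FullSubcategory ⥤ Z := D.ι ⋙ tensorLeft W
  let R : Z ⥤ D.FullSubcategory := tensorLeft (ᘁW) ⋙ D.ι.rightAdjoint
  let adj : L ⊣ R := adj0.comp adj1
  have hRlim : PreservesFiniteLimits R := by
    have := adj.rightAdjoint_preservesLimits
    infer_instance
  have hRadd : R.Additive := by
    have : PreservesBinaryBiproducts R := preservesBinaryBiproducts_of_preservesBinaryProducts R
    exact Functor.additive_of_preservesBinaryBiproducts R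
  -- `R` preserves epimorphisms
  have hRepi : R.PreservesEpimorphisms := by
    constructor
    intro A B p hp
    obtain ⟨P, e, hP, he⟩ := henD (R.obj B).obj (R.obj B).property
    let P₁ : D.FullSubcategory := ⟨P, hP.1⟩
    let e₁ : P₁ ⟶ R.obj B := ObjectProperty.homMk e
    have hLP : Projective (L.obj P₁) := hproj P hP
    let u : L.obj P₁ ⟶ B := (adj.homEquiv P₁ B).symm e₁
    let v : L.obj P₁ ⟶ A := Projective.factorThru u p
    have hv : v ≫ p = u := Projective.factorThru_comp u p
    have h1 : (adj.homEquiv P₁ A v) ≫ R.map p = e₁ := by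
      rw [← adj.homEquiv_naturality_right, hv, Equiv.apply_symm_apply]
    have he₁ : Epi e₁ := by
      apply D.ι.epi_of_epi_map
      exact he
    have h2 : Epi ((adj.homEquiv P₁ A v) ≫ R.map p) := by rw [h1]; exact he₁
    exact epi_of_epi (adj.homEquiv P₁ A v) (R.map p)
  have hRcolim : PreservesFiniteColimits R := by
    have hZ : R.PreservesZeroMorphisms := inferInstance
    have h3 : ∀ (S : ShortComplex Z), S.ShortExact → (S.map R).Exact ∧ Epi (R.map S.g) := by
      intro S hS
      have hg := hS.epi_g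
      have hf := hS.mono_f
      exact ⟨hS.exact.map_of_mono_of_preservesKernel R hf inferInstance, inferInstance⟩
    exact (Functor.preservesFiniteColimits_iff_forall_exact_map_and_epi R).2 h3
  refine ⟨R, hRadd, hRlim, hRcolim, ?_⟩
  -- the natural map `X ⟶ R X` for `X` in `D`
  let app : ∀ X : D.FullSubcategory, X ⟶ (D.ι ⋙ R).obj X := fun X =>
    adj.homEquiv X X.obj (ε ▷ X.obj ≫ (λ_ X.obj).hom)
  have hcomp : ∀ {X Y : D.FullSubcategory} (f : X ⟶ Y),
      adj.homEquiv X Y.obj ((ε ▷ X.obj ≫ (λ_ X.obj).hom) ≫ f.hom) = f ≫ app Y := by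
    intro X Y f
    have h : (ε ▷ X.obj ≫ (λ_ X.obj).hom) ≫ f.hom = L.map f ≫ (ε ▷ Y.obj ≫ (λ_ Y.obj).hom) := by
      change (ε ▷ X.obj ≫ (λ_ X.obj).hom) ≫ f.hom = (W ◁ f.hom) ≫ (ε ▷ Y.obj ≫ (λ_ Y.obj).hom)
      rw [whisker_exchange_assoc, leftUnitor_naturality, Category.assoc]
    rw [h, adj.homEquiv_naturality_left]
  let τ : 𝟭 D.FullSubcategory ⟶ D.ι ⋙ R :=
    { app := app
      naturality := by
        intro X Y f
        change f ≫ app Y = app X ≫ R.map f.hom
        rw [← hcomp, adj.homEquiv_naturality_right] }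
  have hτ : ∀ X, IsIso (τ.app X) := by
    intro X
    refine isIso_of_yoneda_map_bijective _ (fun T => ⟨?_, ?_⟩)
    · intro (f : T ⟶ X) (g : T ⟶ X) hfg
      change f ≫ app X = g ≫ app X at hfg
      rw [← hcomp, ← hcomp] at hfg
      have h1 := (adj.homEquiv T X.obj).injective hfg
      have hepi : Epi (ε ▷ T.obj ≫ (λ_ T.obj).hom) := epi_comp _ _
      have h2 := (cancel_epi (ε ▷ T.obj ≫ (λ_ T.obj).hom)).1 h1
      exact D.hom_ext h2
    · intro g
      let h : W ⊗ T.obj ⟶ X.obj := (adj.homEquiv T X.obj).symm g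
      obtain ⟨k, hk⟩ := hfac (hD.tensor X.property (hD.rdual T.property))
        (tensorRightHomEquiv W T.obj (T.objᘁ) X.obj h)
      let k' : 𝟙_ Z ⊗ T.obj ⟶ X.obj := (tensorRightHomEquiv (𝟙_ Z) T.obj (T.objᘁ) X.obj).symm k
      have hk' : ε ▷ T.obj ≫ k' = h := by
        rw [← tensorRightHomEquiv_symm_naturality, hk, Equiv.symm_apply_apply]
      refine ⟨ObjectProperty.homMk ((λ_ T.obj).inv ≫ k'), ?_⟩
      change ObjectProperty.homMk ((λ_ T.obj).inv ≫ k') ≫ app X = g
      rw [← hcomp]
      apply (adj.homEquiv T X.obj).symm.injective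
      rw [Equiv.symm_apply_apply]
      change (ε ▷ T.obj ≫ (λ_ T.obj).hom) ≫ (λ_ T.obj).inv ≫ k' = h
      rw [Category.assoc, Iso.hom_inv_id_assoc, hk']
  have hτ' : IsIso τ := NatIso.isIso_of_isIso_app τ
  exact ⟨(asIso τ).symm⟩

/-- If `ε : W ⟶ 𝟙_ Z` is a cover in `D'` (a subobject of `W` on which `ε` is nonzero is all of
`W`) and `D ∩ D'` is semisimple, every morphism from `W` to an object of `D` factors through
`ε`. -/
theorem fac_of_cover {D D' : ObjectProperty Z} (hD : TSub D) (hD' : TSub D')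
    (hss : ∀ {A B : Z}, D A → D' A → D B → D' B → ∀ p : A ⟶ B, Epi p → ∃ s, s ≫ p = 𝟙 B)
    {W : Z} (hW : D' W) (ε : W ⟶ 𝟙_ Z) (hε0 : ε ≠ 0) (hε : Epi ε)
    (hcov : ∀ {M : Z} (m : M ⟶ W), Mono m → m ≫ ε ≠ 0 → Epi m)
    {Y : Z} (hY : D Y) (h : W ⟶ Y) : ∃ g, ε ≫ g = h := by
  let p : W ⟶ image h := factorThruImage h
  have hI : D (image h) := hD.sub (image.ι h) inferInstance hY
  have hI' : D' (image h) := hD'.quo p inferInstance hW
  let κ : kernel ε ⟶ W := kernel.ι ε
  let k1 : kernel ε ⟶ image h := κ ≫ p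
  let ι' : image k1 ⟶ image h := image.ι k1
  let c : image h ⟶ cokernel ι' := cokernel.π ι'
  have hC : D (cokernel ι') := hD.quo c inferInstance hI
  have hC' : D' (cokernel ι') := hD'.quo c inferInstance hI'
  obtain ⟨s, hs⟩ := hss hI hI' hC hC' c inferInstance
  -- retraction of `ι'`
  have hz : (𝟙 (image h) - c ≫ s) ≫ c = 0 := by
    rw [Preadditive.sub_comp, Category.id_comp, Category.assoc, hs, Category.comp_id, sub_self]
  let S : ShortComplex Z := ShortComplex.mk ι' c (cokernel.condition ι')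
  have hS : S.Exact := ShortComplex.exact_cokernel ι'
  have hSf : Mono S.f := by
    change Mono (image.ι k1)
    infer_instance
  let ρ : image h ⟶ image k1 := hS.lift (𝟙 (image h) - c ≫ s) hz
  have hρ : ρ ≫ ι' = 𝟙 (image h) - c ≫ s := hS.lift_f _ hz
  have hιρ : ι' ≫ ρ = 𝟙 (image k1) := by
    rw [← cancel_mono ι', Category.assoc, hρ, Preadditive.comp_sub, Category.comp_id,
      ← Category.assoc, cokernel.condition, zero_comp, sub_zero, Category.id_comp]
  let u : W ⟶ image k1 := p ≫ ρ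
  have hκu : κ ≫ u = factorThruImage k1 := by
    have h1 : factorThruImage k1 ≫ ι' = k1 := image.fac k1
    have h2 : κ ≫ u = k1 ≫ ρ := (Category.assoc κ p ρ).symm
    calc κ ≫ u = k1 ≫ ρ := h2
      _ = (factorThruImage k1 ≫ ι') ≫ ρ := congrArg (· ≫ ρ) h1.symm
      _ = factorThruImage k1 := by rw [Category.assoc, hιρ, Category.comp_id]
  have hκue : Epi (κ ≫ u) := by rw [hκu]; infer_instance
  have hue : Epi u := epi_of_epi κ u
  have hu : u = 0 := by
    by_cases hm : kernel.ι u ≫ ε = 0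
    · exfalso
      -- `ε` factors through `u`
      let ε' : image k1 ⟶ 𝟙_ Z := Abelian.epiDesc u ε hm
      have h1 : u ≫ ε' = ε := Abelian.comp_epiDesc u ε hm
      have h2 : (κ ≫ u) ≫ ε' = 0 := by
        rw [Category.assoc, h1, kernel.condition]
      have h3 : ε' = 0 := by
        rw [← cancel_epi (κ ≫ u), h2, comp_zero]
      apply hε0
      rw [← h1, h3, comp_zero]
    · have h4 : Epi (kernel.ι u) := hcov (kernel.ι u) inferInstance hm
      rw [← cancel_epi (kernel.ι u), kernel.condition, comp_zero]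
  have hk1 : k1 = 0 := by
    have h5 : factorThruImage k1 = 0 := by rw [← hκu, hu, comp_zero]
    rw [← image.fac k1, h5, zero_comp]
  have hκh : kernel.ι ε ≫ h = 0 := by
    have h6 : h = p ≫ image.ι h := (image.fac h).symm
    rw [h6, ← Category.assoc]
    change k1 ≫ image.ι h = 0
    rw [hk1, zero_comp]
  exact ⟨Abelian.epiDesc ε h hκh, Abelian.comp_epiDesc ε h hκh⟩

end Pool.Agent.MUE64
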